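import Mathlib
import Pool.Agent.H17Reg.Skula
import Pool.Agent.H91RS.Int7

/-!
# Integers as sums of exactly `n` regular indices

Call `i`, `1 ≤ i ≤ (p - 3) / 2`, a regular index of the prime `p` if `p` does not divide the numerator of
the Bernoulli number `B_{2i}`; an odd prime `p` is regular if and only if all these indices are. Let
`M ≥ p/2 - √p` be the largest regular index and `a = log 2 / log p`.

(1) For all primes `p ≥ 10000` and `n ≥ 2` every integer between `(1 - a) p / 2 + n` and
`(1 + a) p / 2 - 3 + (n - 2) M` is a sum of exactly `n` regular indices; if `n ≥ s + 2`, `p < 6^(2^s)`,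
then the lower bound can be replaced by `n`.
(2) For almost all primes the lower bound can be replaced by `n` for all `n ≥ 3`, and every `k` with
`2 ≤ k ≤ p / (ψ(p) log p)` is a sum of two regular indices.
(3) For all primes: few summands are enough for all indices.

Proof. Let `N = (p - 1) / 2`. By the bound of Skula for the index of irregularity (proved by helper17 in
`Pool.Agent.H17Reg.Skula`) the number `r` of the regular indices satisfies `2 r ≥ N + N a - 2`.
By the pigeonhole principle the integers `k` with `2 (N - r) ≤ k ≤ 2 r` are sums of two regular indices.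
This interval is longer than `√p`, and by `IrregularRuns` there is a regular index within distance `√k`
below every `k ≤ N - 1`; so by induction every integer between `2 (N - r) + j` and `2 r + j M` is a sum of
`2 + j` regular indices. The small integers are treated by iteration of the gap theorem (`IrregularRuns`,
`SumsOfRegularIndices`), for almost all primes together with `SparseIrregular`.
-/

set_option autoImplicit false

namespace Pool.Agent.Results.MP_a3a416_nt.ExactSums

open Filter Topology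

/-- `i` is a regular index of `p`: `1 ≤ i ≤ (p - 3) / 2`, and `p` does not divide the numerator of the
Bernoulli number `B_{2i}` -/
def RegularIndex (p i : ℕ) : Prop :=
  1 ≤ i ∧ 2 * i + 3 ≤ p ∧ ¬ (p : ℤ) ∣ (bernoulli (2 * i)).num

/-- `k` is a sum of exactly `n` regular indices of `p`, with repetitions allowed -/
def IsSum (p n k : ℕ) : Prop :=
  ∃ T : Multiset ℕ, Multiset.card T = n ∧ (∀ i ∈ T, RegularIndex p i) ∧ T.sum = k

/-- (1) All primes `p ≥ 10000`. (2) Almost all primes. (3) All primes, integers up to `(p - 3) / 2`. -/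
theorem result :
    (∀ p : ℕ, p.Prime → 10000 ≤ p → ∃ M : ℕ, RegularIndex p M ∧
      (∀ i, RegularIndex p i → i ≤ M) ∧ (p : ℝ) / 2 - √(p : ℝ) ≤ M ∧
      (∀ n k : ℕ, 2 ≤ n → (1 - Real.log 2 / Real.log p) * (p / 2) + n ≤ k →
        (k : ℝ) + 3 ≤ (1 + Real.log 2 / Real.log p) * (p / 2) + (n - 2) * M → IsSum p n k) ∧
      (∀ s n k : ℕ, p < 6 ^ 2 ^ s → s + 2 ≤ n → n ≤ k →
        (k : ℝ) + 3 ≤ (1 + Real.log 2 / Real.log p) * (p / 2) + (n - 2) * M → IsSum p n k)) ∧
    (∀ ψ : ℕ → ℝ, Tendsto ψ atTop atTop → Tendsto (fun X : ℕ =>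
      (({p : ℕ | p ≤ X ∧ p.Prime ∧ (10000 ≤ p →
          (∀ k : ℕ, 2 ≤ k → (k : ℝ) ≤ p / (ψ p * Real.log p) → IsSum p 2 k) ∧
          ∃ M : ℕ, RegularIndex p M ∧ (∀ i, RegularIndex p i → i ≤ M) ∧
            (∀ n k : ℕ, 3 ≤ n → n ≤ k →
              (k : ℝ) + 3 ≤ (1 + Real.log 2 / Real.log p) * (p / 2) + (n - 2) * M →
              IsSum p n k))}.ncard : ℕ) : ℝ)
        / (({p : ℕ | p ≤ X ∧ p.Prime}.ncard : ℕ) : ℝ)) atTop (𝓝 1)) ∧
    (∀ p : ℕ, p.Prime → ∀ s k n : ℕ, 1 ≤ k → 2 * k + 3 ≤ p → k < 6 ^ 2 ^ s → s + 1 ≤ n → n ≤ k →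
      IsSum p n k) :=
  ⟨fun p hp hp4 => Pool.Agent.H91RS.ints5 hp hp4 (Pool.Agent.H91RS.sk_form hp hp4
    (Pool.Agent.H17Reg.Sk.skula p hp (by omega))),
    fun ψ hψ => Pool.Agent.H91RS.almost ψ hψ,
    fun p hp s k n hk1 hkp hk hn hnk =>
    Pool.Agent.H17Reg.basis p hp s k n hk1 hkp hk hn hnk⟩

end Pool.Agent.Results.MP_a3a416_nt.ExactSums
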