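import Mathlib
import Pool.Agent.H17Reg.Union2

/-!
# Irregular indices in Galois-stable sets of odd characters

Let `p` be an odd prime. The indices `i`, `1 ≤ i ≤ (p - 1) / 2`, correspond to the odd characters modulo
`p` (the last one to the inverse of the Teichmueller character), those with `gcd (2 i - 1, p - 1) = g` to
the characters of order `(p - 1) / g`, which form one Galois orbit. So a union of Galois orbits is given by
a set `G` of numbers `g`. Let `m` be the number of the indices with `gcd (2 i - 1, p - 1) ∈ G`, and `r` the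
number of those which are irregular (`p` divides the numerator of `B_{2i}`).

* `p^(2r) m^m ≤ ((p - 1) / 2)^(2m)`; so `r < m`, and `2 r < m` as soon as `4 m ≥ p - 1`.
* `r ≤ (1/2 + log log p / log p) m`, and `2 r ≤ m` if all the orbits are small.

Proof. Let `S(χ) = ∑_{a < p/2} χ(a)`. The product of the `S(χ)` over the `m` characters is a nonzero element
of the integers of the field of the `(p - 1)`-th roots of unity; it is divisible by the `r`-th power of each
of the `φ(p - 1)` prime ideals over `p` of degree one, so the product of the `|S(χ)|` is at least `p^r`.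
The sum of the `|S(χ)|²` over all odd characters is `(p - 1)² / 4`; the inequality of the arithmetic and
geometric means gives the first bound. The others come from the inequality of Polya and Vinogradov.
-/

set_option autoImplicit false

namespace Pool.Agent.Results.MP_a3a416_nt.GaloisStableSets

open Finset

open Classical in
/-- the indices `i`, `1 ≤ i ≤ (p - 1) / 2`, with `gcd (2 i - 1, p - 1) ∈ G` -/
noncomputable def Orbits (p : ℕ) (G : Set ℕ) : Finset ℕ :=
  (Icc 1 ((p - 1) / 2)).filter (fun i => Nat.gcd (2 * i - 1) (p - 1) ∈ G)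

open Classical in
/-- the irregular ones: `i ≤ (p - 3) / 2` and `p` divides the numerator of `B_{2i}` -/
noncomputable def Irregular (p : ℕ) (G : Set ℕ) : Finset ℕ :=
  (Icc 1 ((p - 3) / 2)).filter (fun i => Nat.gcd (2 * i - 1) (p - 1) ∈ G ∧
    (p : ℤ) ∣ (bernoulli (2 * i)).num)

/-- Bounds for the number `r` of the irregular indices in a union of Galois orbits with `m` elements. -/
theorem result (p : ℕ) (hp : p.Prime) (hp2 : p ≠ 2) (G : Set ℕ) (m r : ℕ)
    (hm : m = (Orbits p G).card) (hr : r = (Irregular p G).card) :
    p ^ (2 * r) * m ^ m ≤ ((p - 1) / 2) ^ (2 * m) ∧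
    (0 < m → r < m) ∧
    (p - 1 ≤ 4 * m → 2 * r < m) ∧
    (r : ℝ) ≤ (1 / 2 + Real.log (Real.log p) / Real.log p) * m ∧
    ((∀ g ∈ G, g ∣ p - 1 → Real.log p ^ (2 * Nat.totient ((p - 1) / g)) < p) → 2 * r ≤ m) := by
  obtain ⟨h1, h2, h3⟩ := Pool.Agent.H17Reg.Un.final p hp hp2 G m r hm hr
  exact ⟨h1, h2, h3, Pool.Agent.H17Reg.Un2.sum_orbits p hp hp2 G m r hm hr⟩

end Pool.Agent.Results.MP_a3a416_nt.GaloisStableSets
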