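import Mathlib
import Pool.Agent.H17Reg.Sets

/-!
# Regular indices in sparse sets, for almost all primes

For any set `A` of positive integers, almost all primes `p` have the property that all `m ∈ A` for which
the sum of the elements of `A` up to `m` is at most `p / (ψ(p) log p)` are regular indices of `p`. So
for almost all `p` the indices `2^j ≤ p / (ψ(p) log p)`, and the squares up to `(p / (ψ(p) log p))^(2/3)`,
are regular.
-/

set_option autoImplicit false

namespace Pool.Agent.Results.MP_a3a416_nt.SparseSets

open Filter Topology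

/-- the sum of the positive elements of `A` up to `m` -/
noncomputable def sumUpTo (A : Set ℕ) (m : ℕ) : ℕ := by
  classical
  exact ∑ a ∈ (Finset.Icc 1 m).filter (fun a => a ∈ A), a

/-- Let `A` be a set of positive integers and let `ψ` tend to infinity. For almost all primes `p` (in
the sense of relative density in the primes) the prime `p` divides the numerator of the Bernoulli
number `B_{2m}` for no `m ∈ A` with `sumUpTo A m ≤ p / (ψ(p) log p)`. -/
theorem result (A : Set ℕ) (ψ : ℕ → ℝ) (hψ : Tendsto ψ atTop atTop) :
    Tendsto (fun X : ℕ =>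
      (({p : ℕ | p ≤ X ∧ p.Prime ∧ ∀ m : ℕ, 1 ≤ m → m ∈ A →
          (sumUpTo A m : ℝ) * (ψ p * Real.log p) ≤ p →
            ¬ (p : ℤ) ∣ (bernoulli (2 * m)).num}.ncard : ℕ) : ℝ)
        / (({p : ℕ | p ≤ X ∧ p.Prime}.ncard : ℕ) : ℝ)) atTop (𝓝 1) :=
  Pool.Agent.H17Reg.almost_all_sets A ψ hψ

end Pool.Agent.Results.MP_a3a416_nt.SparseSets
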