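import Mathlib
import Pool.Agent.H91RS.Cor

/-!
# Growth of sumsets with the regular indices

Call `i`, `1 ≤ i ≤ (p - 3) / 2`, a regular index of the prime `p` if `p` does not divide the numerator of
the Bernoulli number `B_{2i}`; an odd prime `p` is regular if and only if all these indices are.

For all large primes `p` and all divisors `h` of `(p - 1) / 2`, the set `R` of the residue classes
modulo `h` of the regular indices expands every nonempty set `A` of residue classes:
`A + R` is everything or has at least `|A| + (1 - c) h` elements, `c = (log h + 10 log log p) / (2 log p)`.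

Proof. Kneser's theorem. Let `H` be the stabiliser of `A + R`, of index `d`. If `d` is smaller than
`log p / (2 log log p)` then all classes modulo `d` contain a regular index (`ResidueClasses`), so `A + R`
is everything. Otherwise `|A + R| ≥ |A| + |R + H| - |H|`, `|H| ≤ 2 h log log p / log p`, and by
`RegularClasses` almost half of the classes modulo `d` (all but `log d / (2 log p)`) contain a regular
index.
-/

set_option autoImplicit false

namespace Pool.Agent.Results.MP_a3a416_nt.SumsetGrowth

open Finset Pointwise

/-- `i` is a regular index of `p`: `1 ≤ i ≤ (p - 3) / 2`, and `p` does not divide the numerator of the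
Bernoulli number `B_{2i}` -/
def RegularIndex (p i : ℕ) : Prop :=
  1 ≤ i ∧ 2 * i + 3 ≤ p ∧ ¬ (p : ℤ) ∣ (bernoulli (2 * i)).num

open Classical in
/-- the set of the residue classes modulo `h` of the regular indices of `p` -/
noncomputable def R (p h : ℕ) [NeZero h] : Finset (ZMod h) :=
  univ.filter fun x => ∃ i : ℕ, RegularIndex p i ∧ ((i : ℕ) : ZMod h) = x

/-- `c = (log h + 10 log log p) / (2 log p)` -/
noncomputable def loss (p h : ℕ) : ℝ :=
  (Real.log h + 10 * Real.log (Real.log p)) / (2 * Real.log p)

/-- For all large primes `p`, all divisors `h` of `(p - 1) / 2` and all nonempty sets `A`, `B` of residue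
classes modulo `h`: `A + R` is everything or has at least `|A| + (1 - c) h` elements, and `A + B + R` is
everything if `|A| + |B| > c h`. -/
theorem result : ∃ P : ℕ, ∀ p : ℕ, P ≤ p → p.Prime → ∀ (h : ℕ) [NeZero h], h ∣ (p - 1) / 2 →
    (∀ A : Finset (ZMod h), A.Nonempty → A + R p h = univ ∨
      (#A : ℝ) + (1 - loss p h) * h ≤ (#(A + R p h) : ℝ)) ∧
    (∀ A B : Finset (ZMod h), A.Nonempty → B.Nonempty → loss p h * h < (#A : ℝ) + #B →
      A + B + R p h = univ) := by
  obtain ⟨P, hP⟩ := Pool.Agent.H91RS.large
  refine ⟨P, fun p hpP hp h _ hh => ?_⟩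
  have hL : Pool.Agent.H91RS.Lg p := hP p hpP
  exact ⟨fun A hA => Pool.Agent.H91RS.main hp hL.1 hL.2.1 hh A hA,
    fun A B hA hB hAB => Pool.Agent.H91RS.two_sets hp hL hh A B hA hB hAB⟩

end Pool.Agent.Results.MP_a3a416_nt.SumsetGrowth
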